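import Pool.Agent.X112.GS.Fin

/-!
# The vectors of `L` consecutive spacings of the zeta zeros are not confined to `L` patterns

No hypothesis is assumed.  Let `0 < γ_1 ≤ γ_2 ≤ …` be the positive ordinates of the nontrivial zeros of `ζ`, with
multiplicity, and let `d_n = γ_{n+1} log γ_{n+1} / 2π - γ_n log γ_n / 2π` be the spacings of the Alternative Hypothesis.

For every `L` there is `ε > 0` such that for all large `N` and ANY list of `L` real vectors of length `L` (it may depend on
`N`), the vector `(d_n, …, d_{n+L-1})` differs by at least `ε`, in some coordinate, from each of the vectors of the list,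
for at least `ε N` of the `n ≤ N`.  So if the Alternative Hypothesis holds, then the patterns formed by `L` consecutive
half-integers are more than `L` in number, for each `L`, also if patterns of small frequency are disregarded; by the
theorem of Morse and Hedlund this is the strongest statement of this form which holds for all sequences that are not
periodic, and the case of periodic sequences is the weakest one.

The proof is `Pool.Agent.X112.GS.pats` of the starting files (in no hand-in there); it rests on the normal law for the sums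
of `r` consecutive spacings (variance `log r / π²`) and a finitary form of the theorem of Morse and Hedlund.
-/

set_option autoImplicit false

open Filter

namespace Pool.Agent.Results.MP_f0209c_nt.PatternComplexity

/-- multiplicity of `s` as a zero of the Riemann zeta function (order of vanishing at `s`) -/
noncomputable def zmult (s : ℂ) : ℕ := analyticOrderNatAt riemannZeta s

/-- the number of nontrivial zeros of `ζ` with ordinate in `(0, t]`, with multiplicity -/
noncomputable def NZ (t : ℝ) : ℕ :=
  ∑ᶠ s ∈ {s : ℂ | riemannZeta s = 0 ∧ 0 < s.re ∧ s.re < 1 ∧ 0 < s.im ∧ s.im ≤ t}, zmult s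

/-- for `n ≥ 1`: the `n`-th positive ordinate `γ n` of a nontrivial zero of `ζ`, the ordinates being
listed in nondecreasing order and repeated according to multiplicity -/
noncomputable def γ (n : ℕ) : ℝ := sInf {t : ℝ | n ≤ NZ t}

/-- the normalised spacing `d_n = γ_{n+1} log γ_{n+1} / 2π - γ_n log γ_n / 2π` -/
noncomputable def d (n : ℕ) : ℝ :=
  γ (n + 1) * Real.log (γ (n + 1)) / (2 * Real.pi) - γ n * Real.log (γ n) / (2 * Real.pi)

/-- Unconditionally: for every `L ≥ 1` there is `ε > 0` such that for all large `N` and all real vectors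
`v 0, …, v (L - 1)` of length `L`, at least `ε N` of the indices `1 ≤ n ≤ N` have the property that each of the `v j` differs
from `(d_n, …, d_{n+L-1})` by at least `ε` in some coordinate. -/
theorem result (L : ℕ) (hL : 1 ≤ L) : ∃ ε : ℝ, 0 < ε ∧ ∀ᶠ N : ℕ in atTop, ∀ v : Fin L → Fin L → ℝ,
    ε * N ≤ ({n : ℕ | 1 ≤ n ∧ n ≤ N ∧ ∀ j : Fin L, ∃ i : Fin L, ε ≤ |d (n + i) - v j i|}.ncard : ℝ) := by
  classical
  obtain ⟨ε, hε, h⟩ := Pool.Agent.X112.GS.pats L hL
  refine ⟨ε, hε, ?_⟩
  filter_upwards [h] with N hN v
  have e0 : {n : ℕ | 1 ≤ n ∧ n ≤ N ∧ ∀ j : Fin L, ∃ i : Fin L, ε ≤ |d (n + i) - v j i|} =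
      (((Finset.Icc 1 N).filter (fun n => ∀ j : Fin L, ∃ i : Fin L, ε ≤ |d (n + i) - v j i|) : Finset ℕ) :
        Set ℕ) := by
    ext n
    rw [Finset.coe_filter]
    constructor
    · rintro ⟨h1, h2, h3⟩
      exact ⟨Finset.mem_Icc.mpr ⟨h1, h2⟩, h3⟩
    · rintro ⟨h1, h2⟩
      exact ⟨(Finset.mem_Icc.mp h1).1, (Finset.mem_Icc.mp h1).2, h2⟩
  rw [e0, Set.ncard_coe_finset]
  have h1 := hN (fun j i => if h : j < L ∧ i < L then v ⟨j, h.1⟩ ⟨i, h.2⟩ else 0)
  refine h1.trans ?_
  apply Nat.cast_le.2
  apply Finset.card_le_card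
  intro n hn
  rw [Finset.mem_filter] at hn ⊢
  refine ⟨hn.1, fun j => ?_⟩
  obtain ⟨i, hi, h2⟩ := hn.2 j j.2
  refine ⟨⟨i, hi⟩, ?_⟩
  have e : (j : ℕ) < L ∧ i < L := ⟨j.2, hi⟩
  simp only [e, and_self, dite_true] at h2
  exact h2

end Pool.Agent.Results.MP_f0209c_nt.PatternComplexity
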